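import Pool.Agent.Lib.MP_dd84fd_nt.LX.PwGS

/-!
# Gauss sums and the singular series of pairs of characters: definitions

`Ch`: characters of all moduli (used for primitive ones).  `pc χ`: the primitive character inducing `χ`.  `up P q`: the
character modulo `q` induced by `P` (`P.1 ∣ q`).  `co q n χ₁ χ₂`: the absolute value of the coefficient of the pair
`(χ₁, χ₂)` in the sum over the reduced fractions with denominator `q`.
-/

set_option autoImplicit false

namespace Pool.MP_dd84fd_nt.BG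

open Finset Pool.MP_67663b_nt.Odd Pool.MP_dd84fd_nt.PL Pool.MP_dd84fd_nt.HXP Pool.MP_dd84fd_nt.LXP

/-- characters of all moduli -/
abbrev Ch := Σ r : ℕ, DirichletCharacter ℂ r

/-- `P` is a primitive character of a positive modulus -/
def Pri (P : Ch) : Prop := 1 ≤ P.1 ∧ P.2.IsPrimitive

/-- the primitive character which induces `χ` -/
noncomputable def pc {q : ℕ} (χ : DirichletCharacter ℂ q) : Ch := ⟨χ.conductor, χ.primitiveCharacter⟩

/-- the character modulo `q` induced by `P` -/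
noncomputable def up (P : Ch) (q : ℕ) : DirichletCharacter ℂ q :=
  if h : P.1 ∣ q then DirichletCharacter.changeLevel h P.2 else 1

/-- the Gauss sum (`tq` without the assumption `q ≠ 0`) -/
noncomputable def tqq (q : ℕ) (χ : DirichletCharacter ℂ q) : ℂ :=
  ∑ y ∈ range q, χ (y : ZMod q) * ee ((y : ℝ) / q)

/-- the Ramanujan sum of a character -/
noncomputable def Ram (q n : ℕ) (χ : DirichletCharacter ℂ q) : ℂ :=
  ∑ y ∈ range q, (starRingEnd ℂ) (χ (y : ZMod q)) * ee (-((n : ℝ) * ((y : ℝ) / q)))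

/-- the coefficient of the pair `(χ₁, χ₂)` -/
noncomputable def co (q n : ℕ) (χ₁ χ₂ : DirichletCharacter ℂ q) : ℝ :=
  ‖tqq q χ₁‖ * ‖tqq q χ₂‖ * ‖Ram q n (χ₁ * χ₂)‖ / (Nat.totient q : ℝ) ^ 2

/-- `h₀ = q₀ / (q₀, n)`, `q₀ = [r₁, r₂]` -/
def h0 (n : ℕ) (P₁ P₂ : Ch) : ℕ := hq (Nat.lcm P₁.1 P₂.1) n

/-- the conductor of the product of `P₁` and `P₂` divides `h` -/
def PDvd (P₁ P₂ : Ch) (h : ℕ) : Prop :=
  (up P₁ (Nat.lcm P₁.1 P₂.1) * up P₂ (Nat.lcm P₁.1 P₂.1)).conductor ∣ h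

/-- the part of the characters in `A` of the function `y ↦ tp K (cq q c) (y/q + θ)` on the reduced residues -/
noncomputable def Pj (q K : ℕ) (A : Finset (DirichletCharacter ℂ q)) (c : ℕ → ℂ) (θ : ℝ) (y : ℕ) : ℂ :=
  1 / (Nat.totient q : ℂ) * ∑ χ ∈ A, (starRingEnd ℂ) (χ (y : ZMod q)) * (tqq q χ * cS q K c χ θ)

end Pool.MP_dd84fd_nt.BG
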