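import Pool.Agent.Lib.MP_dd84fd_nt.BG.Defs

/-!
# Ramanujan sums of characters

`PL.q_kernel` with `F = conj χ`; orthogonality of the characters modulo `q`.
-/

set_option autoImplicit false

namespace Pool.MP_dd84fd_nt.BG

open Finset Pool.MP_67663b_nt.Odd Pool.MP_dd84fd_nt.PL Pool.MP_dd84fd_nt.HXP Pool.MP_dd84fd_nt.LXP

private theorem rb_sum (q : ℕ) [NeZero q] (f : ℕ → ℂ) :
    ∑ y ∈ range q, f y = ∑ y : ZMod q, f y.val := by
  symm
  refine Finset.sum_nbij' (fun y => y.val) (fun y => (y : ZMod q)) ?_ ?_ ?_ ?_ ?_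
  · intro y _
    exact Finset.mem_range.2 (ZMod.val_lt y)
  · intro y _
    exact Finset.mem_univ _
  · intro y _
    exact ZMod.natCast_zmod_val y
  · intro y hy
    exact ZMod.val_cast_of_lt (Finset.mem_range.1 hy)
  · intro y _
    rfl

private theorem rb_conj (q : ℕ) [NeZero q] (χ : DirichletCharacter ℂ q) (a : ZMod q) :
    (starRingEnd ℂ) (χ a) = χ⁻¹ a := by
  by_cases hu : IsUnit a
  · obtain ⟨u, hu⟩ := hu
    rw [← hu, MulChar.inv_apply_eq_inv, Ring.inverse_eq_inv',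
      Complex.inv_eq_conj (DirichletCharacter.unit_norm_eq_one χ u)]
  · rw [MulChar.map_nonunit _ hu, MulChar.map_nonunit _ hu, map_zero]

theorem Ram_eq (q n : ℕ) [NeZero q] (χ : DirichletCharacter ℂ q) :
    Ram q n χ = ∑ x ∈ univ.filter (fun x : ZMod q => IsUnit x),
      (starRingEnd ℂ) (χ x) * ee (-((n : ℝ) * ((x.val : ℝ) / q))) := by
  unfold Ram
  rw [rb_sum q (fun y => (starRingEnd ℂ) (χ (y : ZMod q)) * ee (-((n : ℝ) * ((y : ℝ) / q))))]
  symm
  refine (Finset.sum_subset (Finset.filter_subset _ _) ?_).trans ?_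
  · intro x _ hx
    have hu : ¬ IsUnit x := fun h => hx (Finset.mem_filter.2 ⟨Finset.mem_univ _, h⟩)
    rw [MulChar.map_nonunit _ hu, map_zero, zero_mul]
  · refine Finset.sum_congr rfl fun y _ => ?_
    simp only [ZMod.natCast_zmod_val]

private theorem hq_dvd (q n : ℕ) : hq q n ∣ q := by
  unfold hq
  exact Nat.div_dvd_of_dvd (Nat.gcd_dvd_left q n)

theorem hq_pos (q n : ℕ) (hq1 : 1 ≤ q) : 0 < hq q n := by
  unfold hq
  have h0 : 0 < Nat.gcd q n := Nat.gcd_pos_of_pos_left _ (by omega)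
  exact Nat.div_pos (Nat.le_of_dvd (by omega) (Nat.gcd_dvd_left q n)) h0

private theorem rb_orth (q h : ℕ) [NeZero q] [NeZero h] (hd : h ∣ q) (χ : DirichletCharacter ℂ q)
    (ξ : DirichletCharacter ℂ h) :
    ‖∑ x : ZMod q, DirichletCharacter.changeLevel hd ξ x * (starRingEnd ℂ) (χ x)‖ =
      if DirichletCharacter.changeLevel hd ξ = χ then (Nat.totient q : ℝ) else 0 := by
  have h1 : ∑ x : ZMod q, DirichletCharacter.changeLevel hd ξ x * (starRingEnd ℂ) (χ x) =
      ∑ x : ZMod q, (DirichletCharacter.changeLevel hd ξ * χ⁻¹) x := by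
    refine Finset.sum_congr rfl fun x _ => ?_
    rw [rb_conj, MulChar.mul_apply]
  rw [h1]
  by_cases h : DirichletCharacter.changeLevel hd ξ = χ
  · rw [if_pos h, h, mul_inv_cancel]
    have h2 := MulChar.sum_one_eq_card_units (R := ZMod q) (R' := ℂ)
    rw [h2, ZMod.card_units_eq_totient]
    simp
  · rw [if_neg h]
    have h3 : DirichletCharacter.changeLevel hd ξ * χ⁻¹ ≠ 1 := fun h4 => h (mul_inv_eq_one.1 h4)
    rw [MulChar.sum_eq_zero_of_ne_one h3, norm_zero]

private theorem rb_le (q n : ℕ) (hq1 : 1 ≤ q) (χ : DirichletCharacter ℂ q) :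
    ‖Ram q n χ‖ ≤ Real.sqrt ((hq q n : ℝ) * (hq q n).divisors.card) / Nat.totient (hq q n) *
      (if χ.conductor ∣ hq q n then (Nat.totient q : ℝ) else 0) := by
  classical
  haveI : NeZero q := ⟨by omega⟩
  obtain ⟨h, hh⟩ : ∃ h, h = hq q n := ⟨_, rfl⟩
  have hpos := hq_pos q n hq1
  have hd := hq_dvd q n
  rw [← hh] at hpos hd ⊢
  haveI : NeZero h := ⟨by omega⟩
  rw [Ram_eq]
  refine (q_kernel q h n hh hd (fun x => (starRingEnd ℂ) (χ x))).trans ?_
  refine mul_le_mul_of_nonneg_left ?_ (by positivity)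
  rw [Finset.sum_congr rfl fun ξ _ => rb_orth q h hd χ ξ]
  by_cases hc : χ.conductor ∣ h
  · rw [if_pos hc]
    obtain ⟨hm', χ0, hχ0⟩ := (DirichletCharacter.mem_conductorSet_iff_conductor_dvd χ hd).2 hc
    have hinj : ∀ ξ : DirichletCharacter ℂ h, DirichletCharacter.changeLevel hd ξ = χ ↔ ξ = χ0 := by
      intro ξ
      constructor
      · intro h1
        apply DirichletCharacter.changeLevel_injective hd
        rw [h1]
        exact hχ0
      · intro h1
        rw [h1]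
        exact hχ0.symm
    rw [Finset.sum_congr rfl fun ξ _ => if_congr (hinj ξ) rfl rfl]
    simp
  · rw [if_neg hc]
    refine le_of_eq (Finset.sum_eq_zero fun ξ _ => ?_)
    rw [if_neg]
    intro h1
    apply hc
    have : h ∈ χ.conductorSet := ⟨hd, ξ, h1.symm⟩
    exact (DirichletCharacter.mem_conductorSet_iff_conductor_dvd χ hd).1 this

theorem ram_zero (q n : ℕ) (hq1 : 1 ≤ q) (χ : DirichletCharacter ℂ q)
    (h : ¬ χ.conductor ∣ hq q n) : Ram q n χ = 0 := by
  have h1 := rb_le q n hq1 χ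
  rw [if_neg h, mul_zero] at h1
  exact norm_le_zero_iff.1 h1

theorem ram_le (q n : ℕ) (hq1 : 1 ≤ q) (χ : DirichletCharacter ℂ q) :
    ‖Ram q n χ‖ ≤ (Nat.totient q : ℝ) *
      (Real.sqrt ((hq q n : ℝ) * (hq q n).divisors.card) / Nat.totient (hq q n)) := by
  have h1 := rb_le q n hq1 χ
  refine h1.trans ?_
  rw [mul_comm]
  refine mul_le_mul_of_nonneg_right ?_ (by positivity)
  split_ifs
  · exact le_rfl
  · positivity

end Pool.MP_dd84fd_nt.BG
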