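import Pool.Agent.Lib.MP_dd84fd_nt.BG.Van
import Pool.Agent.Lib.MP_dd84fd_nt.BG.RamB
import Pool.Agent.Lib.MP_dd84fd_nt.L2G.CharOrth

/-!
# Expansion of exponential sums on the reduced fractions in characters

`tp K (cq q c) (y/q + θ) = (1/φ(q)) ∑_χ conj χ(y) τ(χ) cS(χ, θ)` for `(y, q) = 1`; Parseval; the product with `e(-ny/q)`.
-/

set_option autoImplicit false

namespace Pool.MP_dd84fd_nt.BG

open Finset Pool.MP_67663b_nt.Odd Pool.MP_dd84fd_nt.PL Pool.MP_dd84fd_nt.HXP Pool.MP_dd84fd_nt.LXP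

private theorem ex_add (x y : ℝ) : ee (x + y) = ee x * ee y := by
  unfold ee
  rw [← Complex.exp_add]
  congr 1
  push_cast
  ring

private theorem ex_sum (q : ℕ) [NeZero q] (f : ℕ → ℂ) :
    ∑ y ∈ range q, f y = ∑ y : ZMod q, f y.val := by
  symm
  refine Finset.sum_nbij' (fun y => y.val) (fun y => (y : ZMod q)) ?_ ?_ ?_ ?_ ?_
  · intro y _
    exact Finset.mem_range.2 (ZMod.val_lt y)
  · intro y _
    exact Finset.mem_univ _
  · intro y _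
    exact ZMod.natCast_zmod_val y
  · intro y hy
    exact ZMod.val_cast_of_lt (Finset.mem_range.1 hy)
  · intro y _
    rfl

private theorem ex_conj (q : ℕ) [NeZero q] (χ : DirichletCharacter ℂ q) (a : ZMod q) :
    (starRingEnd ℂ) (χ a) = χ⁻¹ a := by
  by_cases hu : IsUnit a
  · obtain ⟨u, hu⟩ := hu
    rw [← hu, MulChar.inv_apply_eq_inv, Ring.inverse_eq_inv',
      Complex.inv_eq_conj (DirichletCharacter.unit_norm_eq_one χ u)]
  · rw [MulChar.map_nonunit _ hu, MulChar.map_nonunit _ hu, map_zero]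

/-- the sum of `χ(y) G(y/q + θ)` over `y` -/
private theorem ex_coef (q K : ℕ) [NeZero q] (c : ℕ → ℂ) (θ : ℝ) (χ : DirichletCharacter ℂ q) :
    ∑ y : ZMod q, χ y * tp K (cq q c) ((y.val : ℝ) / q + θ) = tqq q χ * cS q K c χ θ := by
  have h1 : ∀ y : ZMod q, χ y * tp K (cq q c) ((y.val : ℝ) / q + θ) =
      ∑ k ∈ Icc 1 K, cq q c k * ee ((k : ℝ) * θ) * (χ y * ee ((k : ℝ) * ((y.val : ℝ) / q))) := by
    intro y
    unfold tp
    rw [Finset.mul_sum]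
    refine Finset.sum_congr rfl fun k _ => ?_
    rw [mul_add, ex_add]
    ring
  rw [Finset.sum_congr rfl fun y _ => h1 y, Finset.sum_comm]
  unfold cS
  rw [Finset.mul_sum]
  refine Finset.sum_congr rfl fun k _ => ?_
  rw [← Finset.mul_sum]
  by_cases hk : Nat.Coprime k q
  · rw [gs_unit q χ k hk, tqq_eq]
    unfold cq
    rw [if_pos hk]
    ring
  · have hχ : χ (k : ZMod q) = 0 := by
      apply MulChar.map_nonunit
      rw [ZMod.isUnit_iff_coprime]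
      exact hk
    unfold cq
    rw [if_neg hk, hχ, map_zero]
    ring

/-- the expansion in characters -/
theorem pj_univ (q K : ℕ) [NeZero q] (c : ℕ → ℂ) (θ : ℝ) (y : ℕ) (hy : Nat.Coprime y q) :
    tp K (cq q c) ((y : ℝ) / q + θ) = Pj q K univ c θ y := by
  classical
  have hper : ∀ z : ℕ, tp K (cq q c) ((z : ℝ) / q + θ) =
      tp K (cq q c) ((((z : ZMod q)).val : ℝ) / q + θ) := by
    intro z
    have hq0 : (0 : ℝ) < q := by exact_mod_cast Nat.pos_of_ne_zero (NeZero.ne q)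
    rw [ZMod.val_natCast]
    unfold tp
    refine Finset.sum_congr rfl fun k _ => ?_
    congr 1
    have h1 : (z : ℝ) = (q : ℝ) * ((z / q : ℕ) : ℝ) + ((z % q : ℕ) : ℝ) := by
      exact_mod_cast (Nat.div_add_mod z q).symm
    obtain ⟨d, hd⟩ : ∃ d : ℕ, d = z / q := ⟨_, rfl⟩
    obtain ⟨r, hr⟩ : ∃ r : ℕ, r = z % q := ⟨_, rfl⟩
    rw [← hd, ← hr] at h1
    rw [← hr]
    have h2 : (k : ℝ) * ((z : ℝ) / q + θ) = ((k * d : ℕ) : ℝ) + (k : ℝ) * ((r : ℝ) / q + θ) := by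
      rw [h1]
      push_cast
      field_simp
      ring
    rw [h2, ex_add]
    have h3 : ee (((k * d : ℕ)) : ℝ) = 1 := by
      unfold ee
      rw [Complex.exp_eq_one_iff]
      refine ⟨((k * d : ℕ) : ℤ), ?_⟩
      push_cast
      ring
    rw [h3, one_mul]
  have hu : IsUnit ((y : ℕ) : ZMod q) := (ZMod.isUnit_iff_coprime y q).2 hy
  have hφ : (Nat.totient q : ℂ) ≠ 0 := by
    have : 0 < Nat.totient q := Nat.totient_pos.2 (Nat.pos_of_ne_zero (NeZero.ne q))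
    exact_mod_cast this.ne'
  have hexp := qker_expand q (fun b => tp K (cq q c) ((b.val : ℝ) / q + θ)) (y : ZMod q) hu
  rw [hper y]
  unfold Pj
  have h4 : tp K (cq q c) ((((y : ZMod q)).val : ℝ) / q + θ) = 1 / (Nat.totient q : ℂ) *
      ∑ ξ : DirichletCharacter ℂ q, (∑ b : ZMod q, ξ⁻¹ b * tp K (cq q c) ((b.val : ℝ) / q + θ)) *
        ξ (y : ZMod q) := by
    rw [← hexp]
    field_simp
  rw [h4]
  congr 1
  refine Fintype.sum_equiv (Equiv.inv (DirichletCharacter ℂ q)) _ _ fun ξ => ?_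
  simp only [Equiv.inv_apply]
  rw [ex_coef q K c θ ξ⁻¹, ex_conj, inv_inv]
  ring

private theorem ex_orth (q : ℕ) [NeZero q] (χ : DirichletCharacter ℂ q) :
    ∑ y : ZMod q, χ y = if χ = 1 then (Nat.totient q : ℂ) else 0 := by
  by_cases h : χ = 1
  · rw [if_pos h, h]
    have h2 := MulChar.sum_one_eq_card_units (R := ZMod q) (R' := ℂ)
    rw [h2, ZMod.card_units_eq_totient]
  · rw [if_neg h]
    exact MulChar.sum_eq_zero_of_ne_one h

private theorem ex_rr (q : ℕ) [NeZero q] (f : ℕ → ℂ) (hf : ∀ y : ℕ, ¬ Nat.Coprime y q → f y = 0) :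
    ∑ y ∈ rr q, f y = ∑ y : ZMod q, f y.val := by
  rw [← ex_sum q f]
  unfold rr
  refine Finset.sum_subset (Finset.filter_subset _ _) ?_
  intro y hy hy'
  exact hf y fun h => hy' (Finset.mem_filter.2 ⟨hy, h⟩)

private theorem ex_nu (q : ℕ) [NeZero q] (χ : DirichletCharacter ℂ q) (y : ℕ) (hy : ¬ Nat.Coprime y q) :
    χ (y : ZMod q) = 0 := by
  apply MulChar.map_nonunit
  rw [ZMod.isUnit_iff_coprime]
  exact hy

/-- Parseval -/
theorem pj_parseval (q K : ℕ) [NeZero q] (A : Finset (DirichletCharacter ℂ q)) (c : ℕ → ℂ) (θ : ℝ) :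
    ∑ y ∈ rr q, ‖Pj q K A c θ y‖ ^ 2 =
      1 / (Nat.totient q : ℝ) * ∑ χ ∈ A, ‖tqq q χ‖ ^ 2 * ‖cS q K c χ θ‖ ^ 2 := by
  classical
  have hφ : (Nat.totient q : ℂ) ≠ 0 := by
    have : 0 < Nat.totient q := Nat.totient_pos.2 (Nat.pos_of_ne_zero (NeZero.ne q))
    exact_mod_cast this.ne'
  obtain ⟨v, hv⟩ : ∃ v : DirichletCharacter ℂ q → ℂ, v = fun χ => tqq q χ * cS q K c χ θ := ⟨_, rfl⟩
  have hmain : ((∑ y ∈ rr q, ‖Pj q K A c θ y‖ ^ 2 : ℝ) : ℂ) =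
      ((1 / (Nat.totient q : ℝ) * ∑ χ ∈ A, ‖tqq q χ‖ ^ 2 * ‖cS q K c χ θ‖ ^ 2 : ℝ) : ℂ) := by
    push_cast
    have h1 : ∀ y : ℕ, ((‖Pj q K A c θ y‖ : ℂ)) ^ 2 = 1 / (Nat.totient q : ℂ) ^ 2 *
        ∑ χ ∈ A, ∑ χ' ∈ A, (v χ * (starRingEnd ℂ) (v χ')) * ((χ⁻¹ * χ') (y : ZMod q)) := by
      intro y
      rw [← Complex.mul_conj']
      unfold Pj
      rw [map_mul, map_sum, map_div₀, map_one, Complex.conj_natCast]
      have h2 : (1 / (Nat.totient q : ℂ) * ∑ χ ∈ A, (starRingEnd ℂ) (χ (y : ZMod q)) *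
          (tqq q χ * cS q K c χ θ)) * (1 / (Nat.totient q : ℂ) * ∑ χ ∈ A,
          (starRingEnd ℂ) ((starRingEnd ℂ) (χ (y : ZMod q)) * (tqq q χ * cS q K c χ θ))) =
          1 / (Nat.totient q : ℂ) ^ 2 * ((∑ χ ∈ A, (starRingEnd ℂ) (χ (y : ZMod q)) * v χ) *
            ∑ χ ∈ A, (starRingEnd ℂ) ((starRingEnd ℂ) (χ (y : ZMod q)) * v χ)) := by
        rw [hv]
        ring
      rw [h2, Finset.sum_mul_sum]
      congr 1
      refine Finset.sum_congr rfl fun χ _ => Finset.sum_congr rfl fun χ' _ => ?_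
      rw [map_mul, Complex.conj_conj, ex_conj, MulChar.mul_apply]
      ring
    rw [Finset.sum_congr rfl fun y _ => h1 y]
    rw [ex_rr q (fun y => 1 / (Nat.totient q : ℂ) ^ 2 * ∑ χ ∈ A, ∑ χ' ∈ A,
        (v χ * (starRingEnd ℂ) (v χ')) * ((χ⁻¹ * χ') (y : ZMod q))) (by
      intro y hy
      have : ∑ χ ∈ A, ∑ χ' ∈ A, (v χ * (starRingEnd ℂ) (v χ')) * ((χ⁻¹ * χ') (y : ZMod q)) = 0 := by
        refine Finset.sum_eq_zero fun χ _ => Finset.sum_eq_zero fun χ' _ => ?_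
        rw [ex_nu q _ y hy, mul_zero]
      rw [this, mul_zero])]
    simp only [ZMod.natCast_zmod_val]
    rw [← Finset.mul_sum, Finset.sum_comm]
    have h3 : ∀ χ ∈ A, ∑ y : ZMod q, ∑ χ' ∈ A, (v χ * (starRingEnd ℂ) (v χ')) * ((χ⁻¹ * χ') y) =
        (Nat.totient q : ℂ) * (v χ * (starRingEnd ℂ) (v χ)) := by
      intro χ hχ
      rw [Finset.sum_comm]
      have h4 : ∀ χ' ∈ A, ∑ y : ZMod q, (v χ * (starRingEnd ℂ) (v χ')) * ((χ⁻¹ * χ') y) =
          if χ' = χ then (Nat.totient q : ℂ) * (v χ * (starRingEnd ℂ) (v χ)) else 0 := by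
        intro χ' _
        rw [← Finset.mul_sum, ex_orth]
        by_cases h5 : χ' = χ
        · rw [if_pos h5, h5, inv_mul_cancel, if_pos rfl]
          ring
        · rw [if_neg h5, if_neg, mul_zero]
          intro h6
          apply h5
          exact (inv_mul_eq_one.1 h6).symm
      rw [Finset.sum_congr rfl h4, Finset.sum_ite_eq', if_pos hχ]
    rw [Finset.sum_congr rfl h3, ← Finset.mul_sum]
    have h7 : ∀ χ ∈ A, v χ * (starRingEnd ℂ) (v χ) =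
        (‖tqq q χ‖ : ℂ) ^ 2 * (‖cS q K c χ θ‖ : ℂ) ^ 2 := by
      intro χ _
      rw [Complex.mul_conj', hv, norm_mul]
      push_cast
      ring
    rw [Finset.sum_congr rfl h7]
    field_simp
  exact_mod_cast hmain

/-- the product with `e(-n y/q)` -/
theorem pj_mul (q n K : ℕ) [NeZero q] (A B : Finset (DirichletCharacter ℂ q)) (c₁ c₂ : ℕ → ℂ)
    (θ₁ θ₂ : ℝ) :
    ∑ y ∈ rr q, Pj q K A c₁ θ₁ y * Pj q K B c₂ θ₂ y * ee (-((n : ℝ) * ((y : ℝ) / q))) =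
      1 / (Nat.totient q : ℂ) ^ 2 * ∑ χ₁ ∈ A, ∑ χ₂ ∈ B, tqq q χ₁ * tqq q χ₂ * Ram q n (χ₁ * χ₂) *
        (cS q K c₁ χ₁ θ₁ * cS q K c₂ χ₂ θ₂) := by
  classical
  have h1 : ∀ y : ℕ, Pj q K A c₁ θ₁ y * Pj q K B c₂ θ₂ y * ee (-((n : ℝ) * ((y : ℝ) / q))) =
      1 / (Nat.totient q : ℂ) ^ 2 * ∑ χ₁ ∈ A, ∑ χ₂ ∈ B, tqq q χ₁ * tqq q χ₂ *
        (cS q K c₁ χ₁ θ₁ * cS q K c₂ χ₂ θ₂) *
        ((starRingEnd ℂ) ((χ₁ * χ₂) (y : ZMod q)) * ee (-((n : ℝ) * ((y : ℝ) / q)))) := by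
    intro y
    unfold Pj
    have h2 : 1 / (Nat.totient q : ℂ) * (∑ χ ∈ A, (starRingEnd ℂ) (χ (y : ZMod q)) *
        (tqq q χ * cS q K c₁ χ θ₁)) * (1 / (Nat.totient q : ℂ) * ∑ χ ∈ B,
        (starRingEnd ℂ) (χ (y : ZMod q)) * (tqq q χ * cS q K c₂ χ θ₂)) *
        ee (-((n : ℝ) * ((y : ℝ) / q))) = 1 / (Nat.totient q : ℂ) ^ 2 *
        (((∑ χ ∈ A, (starRingEnd ℂ) (χ (y : ZMod q)) * (tqq q χ * cS q K c₁ χ θ₁)) *
          ∑ χ ∈ B, (starRingEnd ℂ) (χ (y : ZMod q)) * (tqq q χ * cS q K c₂ χ θ₂)) *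
        ee (-((n : ℝ) * ((y : ℝ) / q)))) := by
      ring
    rw [h2, Finset.sum_mul_sum, Finset.sum_mul]
    congr 1
    refine Finset.sum_congr rfl fun χ₁ _ => ?_
    rw [Finset.sum_mul]
    refine Finset.sum_congr rfl fun χ₂ _ => ?_
    rw [MulChar.mul_apply, map_mul]
    ring
  rw [Finset.sum_congr rfl fun y _ => h1 y, ← Finset.mul_sum, Finset.sum_comm]
  congr 1
  refine Finset.sum_congr rfl fun χ₁ _ => ?_
  rw [Finset.sum_comm]
  refine Finset.sum_congr rfl fun χ₂ _ => ?_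
  rw [← Finset.mul_sum]
  have h3 : ∑ y ∈ rr q, (starRingEnd ℂ) ((χ₁ * χ₂) (y : ZMod q)) * ee (-((n : ℝ) * ((y : ℝ) / q))) =
      Ram q n (χ₁ * χ₂) := by
    unfold Ram rr
    refine Finset.sum_subset (Finset.filter_subset _ _) ?_
    intro y hy hy'
    have : ¬ Nat.Coprime y q := fun h => hy' (Finset.mem_filter.2 ⟨hy, h⟩)
    rw [ex_nu q _ y this, map_zero, zero_mul]
  rw [h3]
  ring

/-- additivity -/
theorem pj_add (q K : ℕ) (A B : Finset (DirichletCharacter ℂ q)) (c : ℕ → ℂ) (θ : ℝ) (y : ℕ)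
    (h : Disjoint A B) : open Classical in
    Pj q K (A ∪ B) c θ y = Pj q K A c θ y + Pj q K B c θ y := by
  classical
  unfold Pj
  rw [← mul_add]
  congr 1
  convert Finset.sum_union h using 2

end Pool.MP_dd84fd_nt.BG
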