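import Pool.Agent.Lib.MP_dd84fd_nt.BG.RamB
import Pool.Agent.Lib.MP_dd84fd_nt.DivBound

/-!
# The sum over the cofactors (arithmetic part of the singular series)

`ser_sum`: for `s` squarefree and coprime to `q₀` write `s = u v`, `u = (s,n)`, `v = s/(s,n)`: `φ(s) = φ(u) φ(v)`,
`∑_u 1/φ(u) ≤ ∏_{p ∣ n, p ∤ q₀} p/(p-1)`, `∑_v (v τ(v))^{1/2}/φ(v)² ≤ C`.
-/

set_option autoImplicit false

namespace Pool.MP_dd84fd_nt.BG

open Finset Pool.MP_67663b_nt.Odd Pool.MP_dd84fd_nt.PL Pool.MP_dd84fd_nt.HXP Pool.MP_dd84fd_nt.LXP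

/-- `(h τ(h))^{1/2} / φ(h)` -/
noncomputable def kap (h : ℕ) : ℝ := Real.sqrt ((h : ℝ) * h.divisors.card) / Nat.totient h

theorem kap_nonneg (h : ℕ) : 0 ≤ kap h := by
  unfold kap
  positivity

private theorem se_tau (h : ℕ) (hh : 1 ≤ h) : (h : ℝ) ≤ (h.divisors.card : ℝ) * Nat.totient h := by
  have h1 : h ≤ h.divisors.card * Nat.totient h := by
    calc h = ∑ d ∈ h.divisors, Nat.totient d := (Nat.sum_totient h).symm
      _ ≤ ∑ _d ∈ h.divisors, Nat.totient h := by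
          refine Finset.sum_le_sum fun d hd => ?_
          exact Nat.le_of_dvd (Nat.totient_pos.2 hh)
            (Nat.totient_dvd_of_dvd (Nat.dvd_of_mem_divisors hd))
      _ = h.divisors.card * Nat.totient h := by rw [Finset.sum_const, smul_eq_mul]
  exact_mod_cast h1

/-- `κ(h) h/φ(h) ≤ C h^{-1/4}` -/
theorem kap_le : ∃ C : ℝ, 1 ≤ C ∧ ∀ h : ℕ, 1 ≤ h →
    (h : ℝ) / Nat.totient h * kap h ≤ C * (h : ℝ) ^ (-(1 / 4) : ℝ) := by
  obtain ⟨C0, hC0, hdiv⟩ := Pool.Agent.Lib.MP_dd84fd_nt.DivBound.div_bound 10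
  have hC0r : (1 : ℝ) ≤ C0 := by exact_mod_cast hC0
  refine ⟨(C0 : ℝ) ^ (1 / 4 : ℝ), Real.one_le_rpow hC0r (by norm_num), fun h hh => ?_⟩
  have hne : NeZero h := ⟨by omega⟩
  have hh0 : (0 : ℝ) < h := by exact_mod_cast hh
  have hτ1 := qker_div_one h
  have hτ0 : (0 : ℝ) < (h.divisors.card : ℝ) := by linarith
  have hφ : (0 : ℝ) < (Nat.totient h : ℝ) := by exact_mod_cast Nat.totient_pos.2 hh
  have h1 : (h : ℝ) / Nat.totient h ≤ (h.divisors.card : ℝ) := by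
    rw [div_le_iff₀ hφ]
    exact se_tau h hh
  have h2 : kap h ≤ (h.divisors.card : ℝ) ^ (3 / 2 : ℝ) * (h : ℝ) ^ (-(1 / 2) : ℝ) := cardlem h hh
  have h3 : (h.divisors.card : ℝ) ^ (10 : ℕ) ≤ (C0 : ℝ) * h := by
    exact_mod_cast hdiv h (by omega)
  have h4 : (h.divisors.card : ℝ) ^ (5 / 2 : ℝ) ≤ (C0 : ℝ) ^ (1 / 4 : ℝ) * (h : ℝ) ^ (1 / 4 : ℝ) := by
    rw [← Real.mul_rpow (by positivity) hh0.le]
    have e1 : (h.divisors.card : ℝ) ^ (5 / 2 : ℝ) = ((h.divisors.card : ℝ) ^ (10 : ℕ)) ^ (1 / 4 : ℝ) := by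
      rw [← Real.rpow_natCast, ← Real.rpow_mul hτ0.le]
      norm_num
    rw [e1]
    exact Real.rpow_le_rpow (by positivity) h3 (by norm_num)
  calc (h : ℝ) / Nat.totient h * kap h
      ≤ (h.divisors.card : ℝ) * ((h.divisors.card : ℝ) ^ (3 / 2 : ℝ) * (h : ℝ) ^ (-(1 / 2) : ℝ)) :=
        mul_le_mul h1 h2 (kap_nonneg h) hτ0.le
    _ = (h.divisors.card : ℝ) ^ (5 / 2 : ℝ) * (h : ℝ) ^ (-(1 / 2) : ℝ) := by
        rw [← mul_assoc]
        congr 1
        rw [show (5 / 2 : ℝ) = 1 + 3 / 2 by norm_num, Real.rpow_add hτ0, Real.rpow_one]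
    _ ≤ (C0 : ℝ) ^ (1 / 4 : ℝ) * (h : ℝ) ^ (1 / 4 : ℝ) * (h : ℝ) ^ (-(1 / 2) : ℝ) :=
        mul_le_mul_of_nonneg_right h4 (by positivity)
    _ = (C0 : ℝ) ^ (1 / 4 : ℝ) * (h : ℝ) ^ (-(1 / 4) : ℝ) := by
        rw [mul_assoc, ← Real.rpow_add hh0]
        norm_num

private theorem se_V : ∃ C : ℝ, 0 < C ∧ ∀ M : ℕ, ∑ v ∈ Icc 1 M, kap v / Nat.totient v ≤ C := by
  obtain ⟨C1, hC1, h1⟩ := kap_le
  have hsum : Summable fun v : ℕ => (v : ℝ) ^ (-(5 / 4) : ℝ) :=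
    Real.summable_nat_rpow.2 (by norm_num)
  refine ⟨C1 * (∑' v : ℕ, (v : ℝ) ^ (-(5 / 4) : ℝ)) + 1, ?_, fun M => ?_⟩
  · have : 0 ≤ ∑' v : ℕ, (v : ℝ) ^ (-(5 / 4) : ℝ) := tsum_nonneg fun v => by positivity
    have : 0 ≤ C1 * (∑' v : ℕ, (v : ℝ) ^ (-(5 / 4) : ℝ)) := mul_nonneg (by linarith) this
    linarith
  have h2 : ∀ v ∈ Icc 1 M, kap v / Nat.totient v ≤ C1 * (v : ℝ) ^ (-(5 / 4) : ℝ) := by
    intro v hv
    have hv1 : 1 ≤ v := (Finset.mem_Icc.1 hv).1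
    have hv0 : (0 : ℝ) < v := by exact_mod_cast hv1
    have e1 : kap v / Nat.totient v = ((v : ℝ) / Nat.totient v * kap v) * (v : ℝ) ^ (-1 : ℝ) := by
      rw [Real.rpow_neg_one]
      field_simp
    rw [e1]
    calc ((v : ℝ) / Nat.totient v * kap v) * (v : ℝ) ^ (-1 : ℝ)
        ≤ (C1 * (v : ℝ) ^ (-(1 / 4) : ℝ)) * (v : ℝ) ^ (-1 : ℝ) :=
          mul_le_mul_of_nonneg_right (h1 v hv1) (by positivity)
      _ = C1 * (v : ℝ) ^ (-(5 / 4) : ℝ) := by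
          rw [mul_assoc, ← Real.rpow_add hv0]
          norm_num
  calc ∑ v ∈ Icc 1 M, kap v / Nat.totient v ≤ ∑ v ∈ Icc 1 M, C1 * (v : ℝ) ^ (-(5 / 4) : ℝ) :=
        Finset.sum_le_sum h2
    _ = C1 * ∑ v ∈ Icc 1 M, (v : ℝ) ^ (-(5 / 4) : ℝ) := by rw [Finset.mul_sum]
    _ ≤ C1 * ∑' v : ℕ, (v : ℝ) ^ (-(5 / 4) : ℝ) := by
        refine mul_le_mul_of_nonneg_left ?_ (by linarith)
        exact hsum.sum_le_tsum _ fun v _ => by positivity
    _ ≤ _ := by linarith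

private theorem se_phi (u : ℕ) (hu : Squarefree u) :
    1 / (Nat.totient u : ℝ) = ∏ p ∈ u.primeFactors, 1 / ((p : ℝ) - 1) := by
  have hu0 : u ≠ 0 := hu.ne_zero
  have h1 := Nat.totient_mul_prod_primeFactors u
  rw [Nat.prod_primeFactors_of_squarefree hu] at h1
  have h2 : Nat.totient u = ∏ p ∈ u.primeFactors, (p - 1) := by
    have h3 : u * Nat.totient u = u * ∏ p ∈ u.primeFactors, (p - 1) := by
      rw [← h1]; ring
    exact Nat.eq_of_mul_eq_mul_left (Nat.pos_of_ne_zero hu0) h3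
  rw [h2]
  push_cast
  rw [Finset.prod_div_distrib, Finset.prod_const_one]
  congr 1
  refine Finset.prod_congr rfl fun p hp => ?_
  have := (Nat.prime_of_mem_primeFactors hp).one_le
  push_cast [Nat.cast_sub this]
  ring

private theorem se_U (n q0 : ℕ) (hn : 1 ≤ n) :
    ∑ u ∈ n.divisors.filter (fun u => Squarefree u ∧ Nat.Coprime u q0), 1 / (Nat.totient u : ℝ) ≤
      ∏ p ∈ n.primeFactors.filter (fun p => ¬ p ∣ q0), ((p : ℝ) / ((p : ℝ) - 1)) := by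
  classical
  obtain ⟨P, hP⟩ : ∃ P, P = n.primeFactors.filter (fun p => ¬ p ∣ q0) := ⟨_, rfl⟩
  rw [← hP]
  have hpr : ∀ p ∈ P, p.Prime := by
    intro p hp
    rw [hP] at hp
    exact Nat.prime_of_mem_primeFactors (Finset.mem_filter.1 hp).1
  have h1 : ∏ p ∈ P, ((p : ℝ) / ((p : ℝ) - 1)) = ∑ t ∈ P.powerset, ∏ p ∈ t, 1 / ((p : ℝ) - 1) := by
    rw [← Finset.prod_one_add]
    refine Finset.prod_congr rfl fun p hp => ?_
    have h2 := (hpr p hp).two_le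
    have h3 : (2 : ℝ) ≤ p := by exact_mod_cast h2
    have h4 : (p : ℝ) - 1 ≠ 0 := by linarith
    field_simp
    ring
  rw [h1]
  have h2 : ∑ u ∈ n.divisors.filter (fun u => Squarefree u ∧ Nat.Coprime u q0), 1 / (Nat.totient u : ℝ) =
      ∑ t ∈ (n.divisors.filter (fun u => Squarefree u ∧ Nat.Coprime u q0)).image
        (fun u : ℕ => (u.primeFactors : Finset ℕ)), ∏ p ∈ t, 1 / (((p : ℕ) : ℝ) - 1) := by
    rw [Finset.sum_image]
    · refine Finset.sum_congr rfl fun u hu => ?_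
      exact se_phi u (Finset.mem_filter.1 hu).2.1
    · intro u hu u' hu' h3
      simp only at h3
      have a1 := (Finset.mem_filter.1 (Finset.mem_coe.1 hu)).2.1
      have a2 := (Finset.mem_filter.1 (Finset.mem_coe.1 hu')).2.1
      rw [← Nat.prod_primeFactors_of_squarefree a1, ← Nat.prod_primeFactors_of_squarefree a2, h3]
  rw [h2]
  refine Finset.sum_le_sum_of_subset_of_nonneg ?_ ?_
  · intro t ht
    obtain ⟨u, hu, rfl⟩ := Finset.mem_image.1 ht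
    obtain ⟨hu1, hu2, hu3⟩ := Finset.mem_filter.1 hu
    rw [Finset.mem_powerset]
    intro p hp
    rw [hP, Finset.mem_filter]
    have hp1 := Nat.prime_of_mem_primeFactors hp
    have hp2 := Nat.dvd_of_mem_primeFactors hp
    refine ⟨Nat.mem_primeFactors.2 ⟨hp1, hp2.trans (Nat.dvd_of_mem_divisors hu1), by omega⟩, ?_⟩
    intro hp3
    exact Nat.not_coprime_of_dvd_of_dvd hp1.one_lt hp2 hp3 hu3
  · intro t ht _
    rw [Finset.mem_powerset] at ht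
    refine Finset.prod_nonneg fun p hp => ?_
    have h2 := (hpr p (ht hp)).two_le
    have h3 : (2 : ℝ) ≤ p := by exact_mod_cast h2
    exact div_nonneg zero_le_one (by linarith)

/-- the sum over the cofactors -/
theorem ser_sum : ∃ C : ℝ, 0 < C ∧ ∀ (n q0 : ℕ), 1 ≤ n → ∀ S : Finset ℕ,
    (∀ s ∈ S, Squarefree s ∧ Nat.Coprime s q0) →
    ∑ s ∈ S, 1 / (Nat.totient s : ℝ) * kap (hq s n) ≤
      C * ∏ p ∈ n.primeFactors.filter (fun p => ¬ p ∣ q0), ((p : ℝ) / ((p : ℝ) - 1)) := by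
  classical
  obtain ⟨C, hC, hV⟩ := se_V
  refine ⟨C, hC, fun n q0 hn S hS => ?_⟩
  obtain ⟨M, hM⟩ : ∃ M, M = S.sup id := ⟨_, rfl⟩
  obtain ⟨U, hU⟩ : ∃ U, U = n.divisors.filter (fun u => Squarefree u ∧ Nat.Coprime u q0) := ⟨_, rfl⟩
  obtain ⟨g, hg⟩ : ∃ g : ℕ × ℕ → ℝ, g = fun z => 1 / (Nat.totient z.1 : ℝ) * (kap z.2 / Nat.totient z.2) :=
    ⟨_, rfl⟩
  obtain ⟨Φ, hΦ⟩ : ∃ Φ : ℕ → ℕ × ℕ, Φ = fun s => (Nat.gcd s n, s / Nat.gcd s n) := ⟨_, rfl⟩
  have hprod : ∀ s : ℕ, (Φ s).1 * (Φ s).2 = s := by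
    intro s
    rw [hΦ]
    exact Nat.mul_div_cancel' (Nat.gcd_dvd_left s n)
  have h1 : ∀ s ∈ S, 1 / (Nat.totient s : ℝ) * kap (hq s n) = g (Φ s) := by
    intro s hs
    have hsq := (hS s hs).1
    have hcop : Nat.Coprime (Φ s).1 (Φ s).2 := by
      have h2 := hsq
      rw [← hprod s] at h2
      exact (Nat.squarefree_mul_iff.1 h2).1
    have h3 : Nat.totient s = Nat.totient (Φ s).1 * Nat.totient (Φ s).2 := by
      rw [← Nat.totient_mul hcop, hprod s]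
    have h4 : hq s n = (Φ s).2 := by rw [hΦ]; rfl
    rw [h3, h4, hg]
    push_cast
    rw [one_div, mul_inv]
    ring
  rw [Finset.sum_congr rfl h1]
  have hinj : Set.InjOn Φ (S : Set ℕ) := by
    intro s _ s' _ h2
    rw [← hprod s, ← hprod s', h2]
  rw [← Finset.sum_image (f := g) hinj]
  have hg0 : ∀ z, 0 ≤ g z := by
    intro z
    rw [hg]
    exact mul_nonneg (by positivity) (div_nonneg (kap_nonneg _) (by positivity))
  have hsub : S.image Φ ⊆ U ×ˢ Icc 1 M := by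
    intro z hz
    obtain ⟨s, hs, rfl⟩ := Finset.mem_image.1 hz
    obtain ⟨hs1, hs2⟩ := hS s hs
    have hs0 : 0 < s := Nat.pos_of_ne_zero hs1.ne_zero
    have hgd : Nat.gcd s n ∣ s := Nat.gcd_dvd_left s n
    have hg0' : 0 < Nat.gcd s n := Nat.gcd_pos_of_pos_left _ hs0
    rw [hΦ, Finset.mem_product, hU, Finset.mem_filter, Finset.mem_Icc]
    refine ⟨⟨Nat.mem_divisors.2 ⟨Nat.gcd_dvd_right s n, by omega⟩, hs1.squarefree_of_dvd hgd,
      Nat.Coprime.coprime_dvd_left hgd hs2⟩, Nat.div_pos (Nat.le_of_dvd hs0 hgd) hg0', ?_⟩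
    refine (Nat.div_le_self _ _).trans ?_
    rw [hM]
    exact Finset.le_sup (f := id) hs
  calc ∑ z ∈ S.image Φ, g z ≤ ∑ z ∈ U ×ˢ Icc 1 M, g z :=
        Finset.sum_le_sum_of_subset_of_nonneg hsub fun z _ _ => hg0 z
    _ = (∑ u ∈ U, 1 / (Nat.totient u : ℝ)) * ∑ v ∈ Icc 1 M, kap v / Nat.totient v := by
        rw [Finset.sum_mul_sum, Finset.sum_product]
        simp only [hg]
    _ ≤ (∏ p ∈ n.primeFactors.filter (fun p => ¬ p ∣ q0), ((p : ℝ) / ((p : ℝ) - 1))) * C := by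
        refine mul_le_mul ?_ (hV M) ?_ ?_
        · rw [hU]
          exact se_U n q0 hn
        · exact Finset.sum_nonneg fun v _ => div_nonneg (kap_nonneg _) (by positivity)
        · refine Finset.prod_nonneg fun p hp => ?_
          have h2 := (Nat.prime_of_mem_primeFactors (Finset.mem_filter.1 hp).1).two_le
          have h3 : (2 : ℝ) ≤ p := by exact_mod_cast h2
          exact div_nonneg (by linarith) (by linarith)
    _ = _ := by ring

/-- `n/φ(n)` -/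
theorem ratio_eq (n : ℕ) (hn : 1 ≤ n) :
    (n : ℝ) / Nat.totient n = ∏ p ∈ n.primeFactors, ((p : ℝ) / ((p : ℝ) - 1)) := by
  have h1 : ((Nat.totient n : ℚ)) = (n : ℚ) * ∏ p ∈ n.primeFactors, (1 - (p : ℚ)⁻¹) :=
    Nat.totient_eq_mul_prod_factors n
  have h2 : (Nat.totient n : ℝ) = (n : ℝ) * ∏ p ∈ n.primeFactors, (1 - (p : ℝ)⁻¹) := by
    have h0 := congrArg (Rat.cast : ℚ → ℝ) h1
    push_cast at h0
    exact h0
  have hn0 : (n : ℝ) ≠ 0 := by
    have : n ≠ 0 := by omega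
    exact_mod_cast this
  have hpp : ∀ p ∈ n.primeFactors, (1 - (p : ℝ)⁻¹) * ((p : ℝ) / ((p : ℝ) - 1)) = 1 := by
    intro p hp
    have h3 := (Nat.prime_of_mem_primeFactors hp).two_le
    have h4 : (2 : ℝ) ≤ p := by exact_mod_cast h3
    have h5 : (p : ℝ) - 1 ≠ 0 := by linarith
    have h6 : (p : ℝ) ≠ 0 := by linarith
    field_simp
  have h7 : (∏ p ∈ n.primeFactors, (1 - (p : ℝ)⁻¹)) * ∏ p ∈ n.primeFactors, ((p : ℝ) / ((p : ℝ) - 1)) = 1 := by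
    rw [← Finset.prod_mul_distrib]
    exact Finset.prod_eq_one hpp
  have hne : (∏ p ∈ n.primeFactors, (1 - (p : ℝ)⁻¹)) ≠ 0 := left_ne_zero_of_mul_eq_one h7
  rw [h2, div_eq_iff (mul_ne_zero hn0 hne)]
  calc (n : ℝ) = n * 1 := by ring
    _ = n * ((∏ p ∈ n.primeFactors, (1 - (p : ℝ)⁻¹)) * ∏ p ∈ n.primeFactors, ((p : ℝ) / ((p : ℝ) - 1))) := by
        rw [h7]
    _ = _ := by ring

private theorem se_fac (p : ℕ) (hp : p.Prime) : 1 ≤ (p : ℝ) / ((p : ℝ) - 1) := by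
  have h3 : (2 : ℝ) ≤ p := by exact_mod_cast hp.two_le
  rw [le_div_iff₀ (by linarith)]
  linarith

theorem ratio_split (n q0 : ℕ) (hn : 1 ≤ n) (hq0 : 1 ≤ q0) :
    (q0 : ℝ) / Nat.totient q0 * ∏ p ∈ n.primeFactors.filter (fun p => ¬ p ∣ q0), ((p : ℝ) / ((p : ℝ) - 1)) ≤
      (n : ℝ) / Nat.totient n * ((hq q0 n : ℝ) / Nat.totient (hq q0 n)) := by
  classical
  have hh : 0 < hq q0 n := hq_pos q0 n hq0
  rw [ratio_eq n hn, ratio_eq q0 hq0, ratio_eq (hq q0 n) hh]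
  obtain ⟨f, hf⟩ : ∃ f : ℕ → ℝ, f = fun p : ℕ => ((p : ℝ) / ((p : ℝ) - 1)) := ⟨_, rfl⟩
  have hf1 : ∀ p : ℕ, p.Prime → 1 ≤ f p := by
    intro p hp
    rw [hf]
    exact se_fac p hp
  have e0 : ∀ S : Finset ℕ, ∏ p ∈ S, ((p : ℝ) / ((p : ℝ) - 1)) = ∏ p ∈ S, f p := by
    intro S
    rw [hf]
  rw [e0, e0, e0, e0]
  have h1 : ∏ p ∈ q0.primeFactors, f p =
      (∏ p ∈ q0.primeFactors.filter (fun p => p ∣ n), f p) *
        ∏ p ∈ q0.primeFactors.filter (fun p => ¬ p ∣ n), f p :=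
    (Finset.prod_filter_mul_prod_filter_not _ _ _).symm
  have h2 : ∏ p ∈ n.primeFactors, f p =
      (∏ p ∈ n.primeFactors.filter (fun p => p ∣ q0), f p) *
        ∏ p ∈ n.primeFactors.filter (fun p => ¬ p ∣ q0), f p :=
    (Finset.prod_filter_mul_prod_filter_not _ _ _).symm
  have h3 : q0.primeFactors.filter (fun p => p ∣ n) = n.primeFactors.filter (fun p => p ∣ q0) := by
    ext p
    simp only [Finset.mem_filter, Nat.mem_primeFactors]
    constructor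
    · rintro ⟨⟨a1, a2, a3⟩, a4⟩
      exact ⟨⟨a1, a4, by omega⟩, a2⟩
    · rintro ⟨⟨a1, a2, a3⟩, a4⟩
      exact ⟨⟨a1, a4, by omega⟩, a2⟩
  have h4 : ∏ p ∈ q0.primeFactors.filter (fun p => ¬ p ∣ n), f p ≤ ∏ p ∈ (hq q0 n).primeFactors, f p := by
    have hsub : q0.primeFactors.filter (fun p => ¬ p ∣ n) ⊆ (hq q0 n).primeFactors := by
      intro p hp
      obtain ⟨hp1, hp2⟩ := Finset.mem_filter.1 hp
      obtain ⟨a1, a2, a3⟩ := Nat.mem_primeFactors.1 hp1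
      refine Nat.mem_primeFactors.2 ⟨a1, ?_, hh.ne'⟩
      have h5 : Nat.gcd q0 n * hq q0 n = q0 := by
        unfold hq
        exact Nat.mul_div_cancel' (Nat.gcd_dvd_left q0 n)
      rw [← h5] at a2
      rcases (Nat.Prime.dvd_mul a1).1 a2 with h6 | h6
      · exact absurd (h6.trans (Nat.gcd_dvd_right q0 n)) hp2
      · exact h6
    rw [← Finset.prod_sdiff hsub]
    have h7 : (1 : ℝ) ≤ ∏ p ∈ (hq q0 n).primeFactors \ q0.primeFactors.filter (fun p => ¬ p ∣ n), f p := by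
      have h8 := Finset.prod_le_prod (s := (hq q0 n).primeFactors \ q0.primeFactors.filter (fun p => ¬ p ∣ n))
        (f := fun _ => (1 : ℝ)) (g := f) (fun _ _ => zero_le_one) (fun p hp =>
          hf1 p (Nat.prime_of_mem_primeFactors (Finset.mem_sdiff.1 hp).1))
      rwa [Finset.prod_const_one] at h8
    have h9 : 0 ≤ ∏ p ∈ q0.primeFactors.filter (fun p => ¬ p ∣ n), f p :=
      Finset.prod_nonneg fun p hp => zero_le_one.trans
        (hf1 p (Nat.prime_of_mem_primeFactors (Finset.mem_filter.1 hp).1))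
    nlinarith
  have hpos : ∀ (S : Finset ℕ), (∀ p ∈ S, p.Prime) → 0 ≤ ∏ p ∈ S, f p := by
    intro S hS
    exact Finset.prod_nonneg fun p hp => zero_le_one.trans (hf1 p (hS p hp))
  rw [h1, h2, h3]
  calc (∏ p ∈ n.primeFactors.filter (fun p => p ∣ q0), f p) *
        (∏ p ∈ q0.primeFactors.filter (fun p => ¬ p ∣ n), f p) *
        ∏ p ∈ n.primeFactors.filter (fun p => ¬ p ∣ q0), f p
      = ((∏ p ∈ n.primeFactors.filter (fun p => p ∣ q0), f p) *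
        ∏ p ∈ n.primeFactors.filter (fun p => ¬ p ∣ q0), f p) *
        (∏ p ∈ q0.primeFactors.filter (fun p => ¬ p ∣ n), f p) := by ring
    _ ≤ _ := by
        refine mul_le_mul_of_nonneg_left h4 (mul_nonneg (hpos _ ?_) (hpos _ ?_))
        · intro p hp
          exact Nat.prime_of_mem_primeFactors (Finset.mem_filter.1 hp).1
        · intro p hp
          exact Nat.prime_of_mem_primeFactors (Finset.mem_filter.1 hp).1

end Pool.MP_dd84fd_nt.BG
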