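import Pool.Agent.Lib.MP_dd84fd_nt.BG.Van
import Pool.Agent.Lib.MP_dd84fd_nt.BG.Ser

/-!
# The sum of the coefficients of one pair of primitive characters over all moduli

`q = q₀ s`, `q₀ = [r₁, r₂]`; `tqq_ne`: `s` squarefree and coprime to `q₀`; `φ(q) = φ(q₀) φ(s)`, `h_q = h_{q₀} h_s`.
-/

set_option autoImplicit false

namespace Pool.MP_dd84fd_nt.BG

open Finset Pool.MP_67663b_nt.Odd Pool.MP_dd84fd_nt.PL Pool.MP_dd84fd_nt.HXP Pool.MP_dd84fd_nt.LXP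

/-- `up P q` has conductor `P.1` -/
theorem up_cond (P : Ch) (hP : Pri P) (q : ℕ) (hq : 1 ≤ q) (h : P.1 ∣ q) : (up P q).conductor = P.1 := by
  have : NeZero q := ⟨by omega⟩
  unfold up
  rw [dif_pos h, DirichletCharacter.conductor_changeLevel]
  exact hP.2

private theorem pa_kap (a b : ℕ) (h : Nat.Coprime a b) : kap (a * b) = kap a * kap b := by
  unfold kap
  rw [Nat.totient_mul h, Nat.Coprime.card_divisors_mul h]
  push_cast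
  rw [div_mul_div_comm, ← Real.sqrt_mul (by positivity)]
  congr 2
  ring

private theorem pa_hq (q0 s n : ℕ) (h : Nat.Coprime q0 s) :
    hq (q0 * s) n = hq q0 n * hq s n ∧ Nat.Coprime (hq q0 n) (hq s n) := by
  unfold hq
  have h1 : Nat.gcd (q0 * s) n = Nat.gcd q0 n * Nat.gcd s n := by
    rw [Nat.gcd_comm (q0 * s), Nat.Coprime.gcd_mul n h, Nat.gcd_comm n q0, Nat.gcd_comm n s]
  constructor
  · rw [h1]
    exact (Nat.div_mul_div_comm (Nat.gcd_dvd_left q0 n) (Nat.gcd_dvd_left s n)).symm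
  · exact Nat.Coprime.coprime_dvd_left (Nat.div_dvd_of_dvd (Nat.gcd_dvd_left q0 n))
      (Nat.Coprime.coprime_dvd_right (Nat.div_dvd_of_dvd (Nat.gcd_dvd_left s n)) h)

/-- the conductor of the product at level `q` -/
private theorem pa_cond (P₁ P₂ : Ch) (h1 : Pri P₁) (h2 : Pri P₂) (q : ℕ) (hq : 1 ≤ q)
    (hd : Nat.lcm P₁.1 P₂.1 ∣ q) :
    (up P₁ q * up P₂ q).conductor =
      (up P₁ (Nat.lcm P₁.1 P₂.1) * up P₂ (Nat.lcm P₁.1 P₂.1)).conductor := by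
  have hl0 : 0 < Nat.lcm P₁.1 P₂.1 := Nat.pos_of_ne_zero fun h => by
    rw [h] at hd
    have := Nat.eq_zero_of_zero_dvd hd
    omega
  have : NeZero q := ⟨by omega⟩
  have : NeZero (Nat.lcm P₁.1 P₂.1) := ⟨by omega⟩
  have a1 : P₁.1 ∣ Nat.lcm P₁.1 P₂.1 := Nat.dvd_lcm_left _ _
  have a2 : P₂.1 ∣ Nat.lcm P₁.1 P₂.1 := Nat.dvd_lcm_right _ _
  have e1 : up P₁ q = DirichletCharacter.changeLevel hd (up P₁ (Nat.lcm P₁.1 P₂.1)) := by
    unfold up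
    rw [dif_pos (a1.trans hd), dif_pos a1]
    exact DirichletCharacter.changeLevel_trans P₁.2 a1 hd
  have e2 : up P₂ q = DirichletCharacter.changeLevel hd (up P₂ (Nat.lcm P₁.1 P₂.1)) := by
    unfold up
    rw [dif_pos (a2.trans hd), dif_pos a2]
    exact DirichletCharacter.changeLevel_trans P₂.2 a2 hd
  rw [e1, e2, ← map_mul, DirichletCharacter.conductor_changeLevel]

private theorem pa_cond_dvd (P₁ P₂ : Ch) (hl0 : 0 < Nat.lcm P₁.1 P₂.1) :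
    (up P₁ (Nat.lcm P₁.1 P₂.1) * up P₂ (Nat.lcm P₁.1 P₂.1)).conductor ∣ Nat.lcm P₁.1 P₂.1 := by
  exact DirichletCharacter.conductor_dvd_level _

/-- a nonzero coefficient -/
theorem co_ne (n q : ℕ) (hq1 : 1 ≤ q) (P₁ P₂ : Ch) (h1 : Pri P₁) (h2 : Pri P₂)
    (hd : Nat.lcm P₁.1 P₂.1 ∣ q) (hne : co q n (up P₁ q) (up P₂ q) ≠ 0) :
    Squarefree (q / Nat.lcm P₁.1 P₂.1) ∧ Nat.Coprime (q / Nat.lcm P₁.1 P₂.1) (Nat.lcm P₁.1 P₂.1) ∧
      PDvd P₁ P₂ (h0 n P₁ P₂) := by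
  have : NeZero q := ⟨by omega⟩
  have a1 : P₁.1 ∣ q := (Nat.dvd_lcm_left _ _).trans hd
  have a2 : P₂.1 ∣ q := (Nat.dvd_lcm_right _ _).trans hd
  have hl0 : 0 < Nat.lcm P₁.1 P₂.1 := Nat.pos_of_ne_zero fun h => by
    rw [h] at hd
    have := Nat.eq_zero_of_zero_dvd hd
    omega
  unfold co at hne
  have t1 : tqq q (up P₁ q) ≠ 0 := fun h => hne (by rw [h, norm_zero]; ring)
  have t2 : tqq q (up P₂ q) ≠ 0 := fun h => hne (by rw [h, norm_zero]; ring)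
  have t3 : Ram q n (up P₁ q * up P₂ q) ≠ 0 := fun h => hne (by rw [h, norm_zero]; ring)
  have hs : q = Nat.lcm (up P₁ q).conductor (up P₂ q).conductor * (q / Nat.lcm P₁.1 P₂.1) := by
    rw [up_cond P₁ h1 q hq1 a1, up_cond P₂ h2 q hq1 a2]
    exact (Nat.mul_div_cancel' hd).symm
  have h3 := tqq_ne q (q / Nat.lcm P₁.1 P₂.1) hq1 _ _ t1 t2 hs
  rw [up_cond P₁ h1 q hq1 a1, up_cond P₂ h2 q hq1 a2] at h3
  refine ⟨h3.1, h3.2, ?_⟩
  have h4 : (up P₁ q * up P₂ q).conductor ∣ hq q n := by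
    by_contra h
    exact t3 (ram_zero q n hq1 _ h)
  rw [pa_cond P₁ P₂ h1 h2 q hq1 hd] at h4
  unfold PDvd h0
  have h5 : q = Nat.lcm P₁.1 P₂.1 * (q / Nat.lcm P₁.1 P₂.1) := (Nat.mul_div_cancel' hd).symm
  have h6 := pa_hq (Nat.lcm P₁.1 P₂.1) (q / Nat.lcm P₁.1 P₂.1) n h3.2.symm
  rw [← h5] at h6
  rw [h6.1] at h4
  have h7 := pa_cond_dvd P₁ P₂ hl0
  have h8 : Nat.Coprime (up P₁ (Nat.lcm P₁.1 P₂.1) * up P₂ (Nat.lcm P₁.1 P₂.1)).conductor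
      (hq (q / Nat.lcm P₁.1 P₂.1) n) := by
    refine Nat.Coprime.coprime_dvd_left h7 (Nat.Coprime.coprime_dvd_right ?_ h3.2.symm)
    unfold hq
    exact Nat.div_dvd_of_dvd (Nat.gcd_dvd_left _ n)
  exact h8.dvd_of_dvd_mul_right h4

theorem co_nonneg (q n : ℕ) (χ₁ χ₂ : DirichletCharacter ℂ q) : 0 ≤ co q n χ₁ χ₂ := by
  unfold co
  positivity

private theorem pa_co_le (n q : ℕ) (hq1 : 1 ≤ q) (P₁ P₂ : Ch) (h1 : Pri P₁) (h2 : Pri P₂)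
    (hd : Nat.lcm P₁.1 P₂.1 ∣ q) :
    co q n (up P₁ q) (up P₂ q) ≤ (Nat.lcm P₁.1 P₂.1 : ℝ) / Nat.totient q * kap (hq q n) := by
  have : NeZero q := ⟨by omega⟩
  have a1 : P₁.1 ∣ q := (Nat.dvd_lcm_left _ _).trans hd
  have a2 : P₂.1 ∣ q := (Nat.dvd_lcm_right _ _).trans hd
  have hl0 : 0 < Nat.lcm P₁.1 P₂.1 := Nat.pos_of_ne_zero fun h => by
    rw [h] at hd
    have := Nat.eq_zero_of_zero_dvd hd
    omega
  have hφ : (0 : ℝ) < (Nat.totient q : ℝ) := by exact_mod_cast Nat.totient_pos.2 hq1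
  have t1 : ‖tqq q (up P₁ q)‖ ^ 2 ≤ (Nat.lcm P₁.1 P₂.1 : ℝ) := by
    refine (tqq_cond q _).trans ?_
    rw [up_cond P₁ h1 q hq1 a1]
    exact_mod_cast Nat.le_of_dvd hl0 (Nat.dvd_lcm_left _ _)
  have t2 : ‖tqq q (up P₂ q)‖ ^ 2 ≤ (Nat.lcm P₁.1 P₂.1 : ℝ) := by
    refine (tqq_cond q _).trans ?_
    rw [up_cond P₂ h2 q hq1 a2]
    exact_mod_cast Nat.le_of_dvd hl0 (Nat.dvd_lcm_right _ _)
  have t3 : ‖tqq q (up P₁ q)‖ * ‖tqq q (up P₂ q)‖ ≤ (Nat.lcm P₁.1 P₂.1 : ℝ) := by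
    nlinarith [sq_nonneg (‖tqq q (up P₁ q)‖ - ‖tqq q (up P₂ q)‖)]
  have t4 : ‖Ram q n (up P₁ q * up P₂ q)‖ ≤ (Nat.totient q : ℝ) * kap (hq q n) :=
    ram_le q n hq1 _
  unfold co
  rw [div_le_iff₀ (by positivity)]
  calc ‖tqq q (up P₁ q)‖ * ‖tqq q (up P₂ q)‖ * ‖Ram q n (up P₁ q * up P₂ q)‖
      ≤ (Nat.lcm P₁.1 P₂.1 : ℝ) * ((Nat.totient q : ℝ) * kap (hq q n)) :=
        mul_le_mul t3 t4 (norm_nonneg _) (by positivity)
    _ = (Nat.lcm P₁.1 P₂.1 : ℝ) / Nat.totient q * kap (hq q n) * (Nat.totient q : ℝ) ^ 2 := by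
        field_simp

/-- **the sum over all moduli of the coefficients of one pair of primitive characters** -/
theorem co_sum : ∃ C : ℝ, 0 < C ∧ ∀ n : ℕ, 1 ≤ n → ∀ P₁ P₂ : Ch, Pri P₁ → Pri P₂ → ∀ QQ : Finset ℕ,
    (∀ q ∈ QQ, 1 ≤ q) →
    ∑ q ∈ QQ.filter (fun q => Nat.lcm P₁.1 P₂.1 ∣ q), co q n (up P₁ q) (up P₂ q) ≤
      C * ((n : ℝ) / Nat.totient n) * (h0 n P₁ P₂ : ℝ) ^ (-(1 / 4) : ℝ) := by
  classical
  obtain ⟨C1, hC1, hser⟩ := ser_sum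
  obtain ⟨C2, hC2, hkap⟩ := kap_le
  refine ⟨C1 * C2, by positivity, fun n hn P₁ P₂ h1 h2 QQ hQQ => ?_⟩
  obtain ⟨q0, hq0⟩ : ∃ q0, q0 = Nat.lcm P₁.1 P₂.1 := ⟨_, rfl⟩
  have hq0pos : 1 ≤ q0 := by
    rw [hq0]
    exact Nat.lcm_pos h1.1 h2.1
  rw [← hq0]
  obtain ⟨F, hF⟩ : ∃ F, F = (QQ.filter (fun q => q0 ∣ q)).filter
    (fun q => co q n (up P₁ q) (up P₂ q) ≠ 0) := ⟨_, rfl⟩
  have e1 : ∑ q ∈ QQ.filter (fun q => q0 ∣ q), co q n (up P₁ q) (up P₂ q) =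
      ∑ q ∈ F, co q n (up P₁ q) (up P₂ q) := by
    rw [hF]
    exact (Finset.sum_filter_ne_zero _).symm
  rw [e1]
  have hFm : ∀ q ∈ F, 1 ≤ q ∧ q0 ∣ q ∧ Squarefree (q / q0) ∧ Nat.Coprime (q / q0) q0 := by
    intro q hq
    rw [hF, Finset.mem_filter, Finset.mem_filter] at hq
    obtain ⟨⟨b1, b2⟩, b3⟩ := hq
    have b4 := hQQ q b1
    have b5 : Nat.lcm P₁.1 P₂.1 ∣ q := by rw [← hq0]; exact b2
    have b6 := co_ne n q b4 P₁ P₂ h1 h2 b5 b3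
    rw [← hq0] at b6
    exact ⟨b4, b2, b6.1, b6.2.1⟩
  have hterm : ∀ q ∈ F, co q n (up P₁ q) (up P₂ q) ≤
      (q0 : ℝ) / Nat.totient q0 * kap (hq q0 n) *
        (1 / (Nat.totient (q / q0) : ℝ) * kap (hq (q / q0) n)) := by
    intro q hq
    obtain ⟨b1, b2, b3, b4⟩ := hFm q hq
    have b5 : Nat.lcm P₁.1 P₂.1 ∣ q := by rw [← hq0]; exact b2
    have b6 := pa_co_le n q b1 P₁ P₂ h1 h2 b5
    rw [← hq0] at b6
    refine b6.trans (le_of_eq ?_)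
    have b7 : q = q0 * (q / q0) := (Nat.mul_div_cancel' b2).symm
    have b8 := pa_hq q0 (q / q0) n b4.symm
    rw [← b7] at b8
    have b9 : Nat.totient q = Nat.totient q0 * Nat.totient (q / q0) := by
      conv_lhs => rw [b7]
      exact Nat.totient_mul b4.symm
    rw [b8.1, pa_kap _ _ b8.2, b9]
    push_cast
    rw [one_div]
    field_simp
  have hinj : Set.InjOn (fun q => q / q0) (F : Set ℕ) := by
    intro q hq q' hq' h
    have c1 := (hFm q hq).2.1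
    have c2 := (hFm q' hq').2.1
    simp only at h
    rw [← Nat.mul_div_cancel' c1, ← Nat.mul_div_cancel' c2, h]
  have hS : ∀ s ∈ F.image (fun q => q / q0), Squarefree s ∧ Nat.Coprime s q0 := by
    intro s hs
    obtain ⟨q, hq, rfl⟩ := Finset.mem_image.1 hs
    exact ⟨(hFm q hq).2.2.1, (hFm q hq).2.2.2⟩
  have h5 := hser n q0 hn (F.image (fun q => q / q0)) hS
  rw [Finset.sum_image hinj] at h5
  have hsplit := ratio_split n q0 hn hq0pos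
  have hh : 1 ≤ hq q0 n := hq_pos q0 n hq0pos
  have hk := hkap (hq q0 n) hh
  have hkn := kap_nonneg (hq q0 n)
  have hh0 : h0 n P₁ P₂ = hq q0 n := by
    unfold h0
    rw [← hq0]
  rw [hh0]
  have hnφ : 0 ≤ (n : ℝ) / Nat.totient n := by positivity
  calc ∑ q ∈ F, co q n (up P₁ q) (up P₂ q)
      ≤ ∑ q ∈ F, (q0 : ℝ) / Nat.totient q0 * kap (hq q0 n) *
        (1 / (Nat.totient (q / q0) : ℝ) * kap (hq (q / q0) n)) := Finset.sum_le_sum hterm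
    _ = (q0 : ℝ) / Nat.totient q0 * kap (hq q0 n) *
        ∑ q ∈ F, (1 / (Nat.totient (q / q0) : ℝ) * kap (hq (q / q0) n)) := by rw [Finset.mul_sum]
    _ ≤ (q0 : ℝ) / Nat.totient q0 * kap (hq q0 n) *
        (C1 * ∏ p ∈ n.primeFactors.filter (fun p => ¬ p ∣ q0), ((p : ℝ) / ((p : ℝ) - 1))) :=
        mul_le_mul_of_nonneg_left h5 (by positivity)
    _ = C1 * kap (hq q0 n) * ((q0 : ℝ) / Nat.totient q0 *
        ∏ p ∈ n.primeFactors.filter (fun p => ¬ p ∣ q0), ((p : ℝ) / ((p : ℝ) - 1))) := by ring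
    _ ≤ C1 * kap (hq q0 n) * ((n : ℝ) / Nat.totient n * ((hq q0 n : ℝ) / Nat.totient (hq q0 n))) :=
        mul_le_mul_of_nonneg_left hsplit (by positivity)
    _ = C1 * ((n : ℝ) / Nat.totient n) * ((hq q0 n : ℝ) / Nat.totient (hq q0 n) * kap (hq q0 n)) := by
        ring
    _ ≤ C1 * ((n : ℝ) / Nat.totient n) * (C2 * (hq q0 n : ℝ) ^ (-(1 / 4) : ℝ)) :=
        mul_le_mul_of_nonneg_left hk (by positivity)
    _ = _ := by ring

end Pool.MP_dd84fd_nt.BG
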