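import Pool.Agent.Lib.MP_dd84fd_nt.BG.Pair

/-!
# Partners

For a given primitive `P₂` at most `H²` primitive characters `P₁` are such that the conductor of `P₁ P₂` divides some
`h ≤ H`; `r₁/(r₁,n)` divides `h₀`.
-/

set_option autoImplicit false

namespace Pool.MP_dd84fd_nt.BG

open Finset Pool.MP_67663b_nt.Odd Pool.MP_dd84fd_nt.PL Pool.MP_dd84fd_nt.HXP Pool.MP_dd84fd_nt.LXP

/-- `q/(q,n)` is monotone for divisibility in `q` -/
theorem hq_mono (r q n : ℕ) (hq1 : 1 ≤ q) (h : r ∣ q) : hq r n ∣ hq q n := by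
  unfold hq
  have hr0 : r ≠ 0 := fun h0 => by
    rw [h0] at h
    have := Nat.eq_zero_of_zero_dvd h
    omega
  have hg1 : Nat.gcd r n ≠ 0 := fun h0 => hr0 (Nat.eq_zero_of_gcd_eq_zero_left h0)
  have hg2 : Nat.gcd q n ≠ 0 := fun h0 => by
    have := Nat.eq_zero_of_gcd_eq_zero_left h0
    omega
  obtain ⟨g, hg⟩ : ∃ g, g = Nat.gcd r n := ⟨_, rfl⟩
  obtain ⟨G, hG⟩ : ∃ G, G = Nat.gcd q n := ⟨_, rfl⟩
  have hgr : g ∣ r := by rw [hg]; exact Nat.gcd_dvd_left r n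
  have hGq : G ∣ q := by rw [hG]; exact Nat.gcd_dvd_left q n
  have hgn : g ∣ n := by rw [hg]; exact Nat.gcd_dvd_right r n
  have hGn : G ∣ n := by rw [hG]; exact Nat.gcd_dvd_right q n
  have hgG : g ∣ G := by rw [hg, hG]; exact Nat.gcd_dvd_gcd_of_dvd_left n h
  have hgcd : Nat.gcd r n = g := hg.symm
  rw [← hg, ← hG]
  rw [← hg] at hg1
  rw [← hG] at hg2
  obtain ⟨a, ha⟩ := hgr
  obtain ⟨b, hb⟩ := hGq
  have e1 : r / g = a := by
    rw [ha]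
    exact Nat.mul_div_cancel_left _ (Nat.pos_of_ne_zero hg1)
  have e2 : q / G = b := by
    rw [hb]
    exact Nat.mul_div_cancel_left _ (Nat.pos_of_ne_zero hg2)
  rw [e1, e2]
  -- `a` is coprime to `n / g`
  obtain ⟨n', hn'⟩ := hgn
  have hcop : Nat.Coprime a n' := by
    rw [ha, hn', Nat.gcd_mul_left] at hgcd
    have h3 : g * Nat.gcd a n' = g * 1 := by rw [hgcd, mul_one]
    exact Nat.eq_of_mul_eq_mul_left (Nat.pos_of_ne_zero hg1) h3
  -- `G = g * t`, `t ∣ n'`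
  obtain ⟨t, ht⟩ := hgG
  have h5 : t ∣ n' := by
    have h6 : g * t ∣ g * n' := by
      rw [← ht, ← hn']
      exact hGn
    exact Nat.dvd_of_mul_dvd_mul_left (Nat.pos_of_ne_zero hg1) h6
  have h7 : g * a ∣ g * (t * b) := by
    rw [← ha, ← mul_assoc, ← ht, ← hb]
    exact h
  have h8 : a ∣ t * b := Nat.dvd_of_mul_dvd_mul_left (Nat.pos_of_ne_zero hg1) h7
  exact (Nat.Coprime.coprime_dvd_right h5 hcop).dvd_of_dvd_mul_left h8

/-- `r₁/(r₁,n) ∣ h₀` -/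
theorem hq_dvd_h0 (n : ℕ) (P₁ P₂ : Ch) (h1 : Pri P₁) (h2 : Pri P₂) :
    hq P₁.1 n ∣ h0 n P₁ P₂ ∧ hq P₂.1 n ∣ h0 n P₁ P₂ :=
  ⟨hq_mono _ _ n (Nat.lcm_pos h1.1 h2.1) (Nat.dvd_lcm_left _ _),
    hq_mono _ _ n (Nat.lcm_pos h1.1 h2.1) (Nat.dvd_lcm_right _ _)⟩

/-- if `h₀ ≤ H` then `(r₁, n) = r₁/h'` with `h' ∣ r₁`, `h' ≤ H`, and it divides `n` -/
theorem bad_dvd (n H : ℕ) (P₁ P₂ : Ch) (h1 : Pri P₁) (h2 : Pri P₂) (hH : h0 n P₁ P₂ ≤ H) :
    ∃ h' : ℕ, 1 ≤ h' ∧ h' ≤ H ∧ h' ∣ P₁.1 ∧ P₁.1 / h' ∣ n := by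
  have hr : 1 ≤ P₁.1 := h1.1
  have hpos : 0 < hq P₁.1 n := hq_pos _ n hr
  have hl : 0 < h0 n P₁ P₂ := hq_pos _ n (Nat.lcm_pos h1.1 h2.1)
  refine ⟨hq P₁.1 n, hpos, (Nat.le_of_dvd hl (hq_dvd_h0 n P₁ P₂ h1 h2).1).trans hH, ?_, ?_⟩
  · unfold hq
    exact Nat.div_dvd_of_dvd (Nat.gcd_dvd_left _ _)
  · have e1 : P₁.1 / hq P₁.1 n = Nat.gcd P₁.1 n := by
      unfold hq
      exact Nat.div_div_self (Nat.gcd_dvd_left _ _) (by omega)
    rw [e1]
    exact Nat.gcd_dvd_right _ _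

/-- the character `ξ` modulo `h` which is equal to `P₁ P₂` (at a common level) -/
private theorem pt_ex (P₁ P₂ : Ch) (h1 : Pri P₁) (h2 : Pri P₂) (h : ℕ) (hh : 1 ≤ h)
    (hd : PDvd P₁ P₂ h) (q : ℕ) (hq1 : 1 ≤ q) (b1 : P₁.1 ∣ q) (b2 : P₂.1 ∣ q) (b3 : h ∣ q) :
    ∃ ξ : DirichletCharacter ℂ h, up P₁ q * up P₂ q = DirichletCharacter.changeLevel b3 ξ := by
  have : NeZero q := ⟨by omega⟩
  have hl : Nat.lcm P₁.1 P₂.1 ∣ q := Nat.lcm_dvd b1 b2
  have : NeZero (Nat.lcm P₁.1 P₂.1) := ⟨(Nat.lcm_pos h1.1 h2.1).ne'⟩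
  have e1 : up P₁ q = DirichletCharacter.changeLevel hl (up P₁ (Nat.lcm P₁.1 P₂.1)) := by
    unfold up
    rw [dif_pos b1, dif_pos (Nat.dvd_lcm_left _ _)]
    exact DirichletCharacter.changeLevel_trans P₁.2 _ hl
  have e2 : up P₂ q = DirichletCharacter.changeLevel hl (up P₂ (Nat.lcm P₁.1 P₂.1)) := by
    unfold up
    rw [dif_pos b2, dif_pos (Nat.dvd_lcm_right _ _)]
    exact DirichletCharacter.changeLevel_trans P₂.2 _ hl
  have hc : (up P₁ q * up P₂ q).conductor ∣ h := by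
    rw [e1, e2, ← map_mul, DirichletCharacter.conductor_changeLevel]
    exact hd
  obtain ⟨hm', χ0, hχ0⟩ := (DirichletCharacter.mem_conductorSet_iff_conductor_dvd _ b3).2 hc
  exact ⟨χ0, hχ0⟩

/-- a primitive character is determined by the character which it induces -/
theorem up_inj (P P' : Ch) (hP : Pri P) (hP' : Pri P') (q : ℕ) (hq1 : 1 ≤ q) (b : P.1 ∣ q)
    (b' : P'.1 ∣ q) (h : up P q = up P' q) : P = P' := by
  have : NeZero q := ⟨by omega⟩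
  have h1 := up_cond P hP q hq1 b
  have h2 := up_cond P' hP' q hq1 b'
  rw [h] at h1
  have h3 : P.1 = P'.1 := by rw [← h1, h2]
  obtain ⟨r, χ⟩ := P
  obtain ⟨r', χ'⟩ := P'
  simp only at h3
  subst h3
  unfold up at h
  simp only at h
  rw [dif_pos b, dif_pos b] at h
  have h4 := DirichletCharacter.changeLevel_injective b h
  rw [h4]

/-- **at most `H²` partners** -/
theorem partners (H : ℕ) (P₂ : Ch) (h2 : Pri P₂) (Y : Finset Ch) (hY : ∀ P ∈ Y, Pri P) :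
    open Classical in
    (Y.filter (fun P₁ => ∃ h : ℕ, 1 ≤ h ∧ h ≤ H ∧ PDvd P₁ P₂ h)).card ≤ H ^ 2 := by
  classical
  obtain ⟨F, hF⟩ : ∃ F, F = Y.filter (fun P₁ => ∃ h : ℕ, 1 ≤ h ∧ h ≤ H ∧ PDvd P₁ P₂ h) := ⟨_, rfl⟩
  rw [← hF]
  -- a common level
  obtain ⟨Q, hQ⟩ : ∃ Q : ℕ, Q = (∏ P ∈ Y, P.1) * P₂.1 * ∏ h ∈ Icc 1 H, h := ⟨_, rfl⟩
  have hQ1 : 1 ≤ Q := by
    rw [hQ]
    refine Nat.one_le_iff_ne_zero.2 (mul_ne_zero (mul_ne_zero ?_ ?_) ?_)
    · exact Finset.prod_ne_zero_iff.2 fun P hP => by have := (hY P hP).1; omega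
    · have := h2.1
      omega
    · exact Finset.prod_ne_zero_iff.2 fun h hh => by have := (Finset.mem_Icc.1 hh).1; omega
  have : NeZero Q := ⟨by omega⟩
  have c1 : ∀ P ∈ Y, P.1 ∣ Q := by
    intro P hP
    rw [hQ, mul_assoc]
    exact (Finset.dvd_prod_of_mem (fun P : Ch => P.1) hP).mul_right _
  have c2 : P₂.1 ∣ Q := by
    rw [hQ]
    exact (Dvd.intro_left _ rfl : P₂.1 ∣ (∏ P ∈ Y, P.1) * P₂.1).mul_right _
  have c3 : ∀ h, 1 ≤ h → h ≤ H → h ∣ Q := by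
    intro h ha hb
    rw [hQ]
    exact (Finset.dvd_prod_of_mem (fun h => h) (Finset.mem_Icc.2 ⟨ha, hb⟩)).mul_left _
  -- the map
  have hex : ∀ P ∈ F, ∃ h : ℕ, ∃ (ha : 1 ≤ h) (hb : h ≤ H), ∃ ξ : DirichletCharacter ℂ h,
      up P Q * up P₂ Q = DirichletCharacter.changeLevel (c3 h ha hb) ξ := by
    intro P hP
    rw [hF, Finset.mem_filter] at hP
    obtain ⟨hPY, h, ha, hb, hc⟩ := hP
    exact ⟨h, ha, hb, pt_ex P P₂ (hY P hPY) h2 h ha hc Q hQ1 (c1 P hPY) c2 (c3 h ha hb)⟩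
  -- the set of all images
  obtain ⟨A, hA⟩ : ∃ A : ∀ h : ℕ, Finset (DirichletCharacter ℂ Q), A = fun h =>
      if hh : 1 ≤ h ∧ h ≤ H then
        (haveI : NeZero h := ⟨by omega⟩
         (univ : Finset (DirichletCharacter ℂ h)).image
          (fun ξ => DirichletCharacter.changeLevel (c3 h hh.1 hh.2) ξ * (up P₂ Q)⁻¹))
      else ∅ := ⟨_, rfl⟩
  have hcard : ∀ h ∈ Icc 1 H, (A h).card ≤ H := by
    intro h hh
    have hh' := Finset.mem_Icc.1 hh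
    have : NeZero h := ⟨by omega⟩
    have : (A h).card ≤ (univ : Finset (DirichletCharacter ℂ h)).card := by
      rw [hA]
      simp only
      rw [dif_pos hh']
      exact Finset.card_image_le
    refine this.trans ?_
    rw [Finset.card_univ]
    have h3 : Fintype.card (DirichletCharacter ℂ h) = Nat.totient h := by
      rw [← Nat.card_eq_fintype_card]
      exact DirichletCharacter.card_eq_totient_of_hasEnoughRootsOfUnity ℂ h
    rw [h3]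
    exact (Nat.totient_le h).trans hh'.2
  have hsub : F.image (fun P => up P Q) ⊆ (Icc 1 H).biUnion A := by
    intro χ hχ
    obtain ⟨P, hP, rfl⟩ := Finset.mem_image.1 hχ
    obtain ⟨h, ha, hb, ξ, hξ⟩ := hex P hP
    rw [Finset.mem_biUnion]
    refine ⟨h, Finset.mem_Icc.2 ⟨ha, hb⟩, ?_⟩
    rw [hA]
    simp only
    rw [dif_pos ⟨ha, hb⟩, Finset.mem_image]
    exact ⟨ξ, Finset.mem_univ _, by rw [← hξ, mul_inv_cancel_right]⟩
  have hinj : (F.image (fun P => up P Q)).card = F.card := by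
    refine Finset.card_image_of_injOn ?_
    intro P hP P' hP' h
    have hPY : P ∈ Y := by
      have := Finset.mem_coe.1 hP
      rw [hF] at this
      exact (Finset.mem_filter.1 this).1
    have hPY' : P' ∈ Y := by
      have := Finset.mem_coe.1 hP'
      rw [hF] at this
      exact (Finset.mem_filter.1 this).1
    exact up_inj P P' (hY P hPY) (hY P' hPY') Q hQ1 (c1 P hPY) (c1 P' hPY') h
  rw [← hinj]
  calc (F.image (fun P => up P Q)).card ≤ ((Icc 1 H).biUnion A).card := Finset.card_le_card hsub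
    _ ≤ ∑ h ∈ Icc 1 H, (A h).card := Finset.card_biUnion_le
    _ ≤ ∑ _h ∈ Icc 1 H, H := Finset.sum_le_sum hcard
    _ = H ^ 2 := by
        rw [Finset.sum_const, Nat.card_Icc, smul_eq_mul]
        simp only [Nat.add_sub_cancel]
        ring

end Pool.MP_dd84fd_nt.BG
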