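import Pool.Agent.Lib.MP_dd84fd_nt.BG.Defs

/-!
# Vanishing of Gauss sums of imprimitive characters

If `p² ∣ q` and the conductor of `χ` divides `q/p` then `τ(χ) = 0`: `u_t = 1 + t q/p` is `1` modulo `q/p` and a unit
modulo `q`, so `τ = ∑ χ(y) e(u_t y/q)`; average over `t < p`.
-/

set_option autoImplicit false

namespace Pool.MP_dd84fd_nt.BG

open Finset Pool.MP_67663b_nt.Odd Pool.MP_dd84fd_nt.PL Pool.MP_dd84fd_nt.HXP Pool.MP_dd84fd_nt.LXP

private theorem vn_sum (q : ℕ) [NeZero q] (f : ℕ → ℂ) :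
    ∑ y ∈ range q, f y = ∑ y : ZMod q, f y.val := by
  symm
  refine Finset.sum_nbij' (fun y => y.val) (fun y => (y : ZMod q)) ?_ ?_ ?_ ?_ ?_
  · intro y _
    exact Finset.mem_range.2 (ZMod.val_lt y)
  · intro y _
    exact Finset.mem_univ _
  · intro y _
    exact ZMod.natCast_zmod_val y
  · intro y hy
    exact ZMod.val_cast_of_lt (Finset.mem_range.1 hy)
  · intro y _
    rfl

theorem tqq_eq (q : ℕ) [NeZero q] (χ : DirichletCharacter ℂ q) : tqq q χ = tq q χ := by
  unfold tqq tq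
  rw [vn_sum q (fun y => χ (y : ZMod q) * ee ((y : ℝ) / q))]
  refine Finset.sum_congr rfl fun y _ => ?_
  simp only [ZMod.natCast_zmod_val]

theorem tqq_cond (q : ℕ) [NeZero q] (χ : DirichletCharacter ℂ q) :
    ‖tqq q χ‖ ^ 2 ≤ (χ.conductor : ℝ) := by
  rw [tqq_eq]
  exact gs_cond q χ

private theorem vn_gauss (q : ℕ) [NeZero q] (χ : DirichletCharacter ℂ q) :
    tq q χ = gaussSum χ (ZMod.stdAddChar (N := q)) := by
  unfold tq gaussSum
  refine Finset.sum_congr rfl fun y _ => ?_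
  have h := qker_std q 1 y
  push_cast at h
  rw [one_mul, one_mul] at h
  rw [h]

private theorem vn_aux (q p : ℕ) [NeZero q] (χ : DirichletCharacter ℂ q) (hp : p.Prime)
    (hpq : p ^ 2 ∣ q) (hc : χ.conductor ∣ q / p) :
    gaussSum χ (ZMod.stdAddChar (N := q)) = 0 := by
  have hq0 : 0 < q := Nat.pos_of_ne_zero (NeZero.ne q)
  have hp0 : 0 < p := hp.pos
  have hpq1 : p ∣ q := (dvd_pow_self p two_ne_zero).trans hpq
  obtain ⟨m, hm⟩ : ∃ m, m = q / p := ⟨_, rfl⟩
  rw [← hm] at hc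
  have hqm : q = p * m := by rw [hm]; exact (Nat.mul_div_cancel' hpq1).symm
  have hm0 : 0 < m := by
    rcases Nat.eq_zero_or_pos m with h | h
    · rw [h, mul_zero] at hqm
      omega
    · exact h
  have hpm : p ∣ m := by
    rw [hqm, pow_two] at hpq
    exact Nat.dvd_of_mul_dvd_mul_left hp0 hpq
  have hmq : m ∣ q := ⟨p, by rw [hqm]; ring⟩
  have hfac : m ∈ χ.conductorSet := (DirichletCharacter.mem_conductorSet_iff_conductor_dvd χ hmq).2 hc
  obtain ⟨hm', χ0, hχ0⟩ := hfac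
  set ψ := ZMod.stdAddChar (N := q) with hψ
  have hcop : ∀ t : ℕ, Nat.Coprime (1 + t * m) q := by
    intro t
    rw [hqm]
    have h1 : Nat.Coprime (1 + t * m) m := by
      simp
    exact Nat.Coprime.mul_right (Nat.Coprime.coprime_dvd_right hpm h1) h1
  -- the value of `χ` at `u_t`
  have hval : ∀ t : ℕ, χ (ZMod.unitOfCoprime (1 + t * m) (hcop t) : (ZMod q)ˣ) = 1 := by
    intro t
    have e1 : χ (ZMod.unitOfCoprime (1 + t * m) (hcop t) : (ZMod q)ˣ) =
        χ0 (ZMod.cast ((ZMod.unitOfCoprime (1 + t * m) (hcop t) : (ZMod q)ˣ) : ZMod q)) := by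
      conv_lhs => rw [hχ0]
      exact DirichletCharacter.changeLevel_eq_cast_of_dvd χ0 hm' _
    rw [e1, ZMod.coe_unitOfCoprime, ZMod.cast_natCast hmq]
    have e2 : ((1 + t * m : ℕ) : ZMod m) = 1 := by
      push_cast
      simp
    rw [e2, map_one]
  have hshift : ∀ t : ℕ, gaussSum χ ψ = ∑ y : ZMod q, χ y * (ψ y * (ψ ((m : ZMod q) * y)) ^ t) := by
    intro t
    have h := gaussSum_mulShift χ ψ (ZMod.unitOfCoprime (1 + t * m) (hcop t))
    rw [hval t, one_mul] at h
    rw [← h]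
    unfold gaussSum
    refine Finset.sum_congr rfl fun y _ => ?_
    congr 1
    rw [AddChar.mulShift_apply, ZMod.coe_unitOfCoprime, ← AddChar.map_nsmul_eq_pow, ← AddChar.map_add_eq_mul]
    congr 1
    rw [nsmul_eq_mul]
    push_cast
    ring
  have hgeo : ∀ y : ZMod q, IsUnit y → ∑ t ∈ range p, (ψ ((m : ZMod q) * y)) ^ t = 0 := by
    intro y hy
    have hx1 : ψ ((m : ZMod q) * y) ≠ 1 := by
      intro h
      have h0 : ψ ((m : ZMod q) * y) = ψ 0 := by rw [h, AddChar.map_zero_eq_one]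
      have h2 := ZMod.injective_stdAddChar h0
      have h3 : (m : ZMod q) = 0 := by
        obtain ⟨u, hu⟩ := hy
        rw [← hu] at h2
        exact (Units.mul_left_eq_zero u).1 h2
      rw [ZMod.natCast_eq_zero_iff] at h3
      have h4 := Nat.le_of_dvd hm0 h3
      rw [hqm] at h4
      have h5 := hp.two_le
      nlinarith
    have hxp : (ψ ((m : ZMod q) * y)) ^ p = 1 := by
      rw [← AddChar.map_nsmul_eq_pow]
      have h6 : p • ((m : ZMod q) * y) = 0 := by
        rw [nsmul_eq_mul, ← mul_assoc]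
        have h7 : (p : ZMod q) * (m : ZMod q) = 0 := by
          rw [← Nat.cast_mul, ← hqm]
          exact ZMod.natCast_self q
        rw [h7, zero_mul]
      rw [h6, AddChar.map_zero_eq_one]
    rw [geom_sum_eq hx1, hxp, sub_self, zero_div]
  have hsum : (p : ℂ) * gaussSum χ ψ = 0 := by
    have h1 : (p : ℂ) * gaussSum χ ψ =
        ∑ t ∈ range p, ∑ y : ZMod q, χ y * (ψ y * (ψ ((m : ZMod q) * y)) ^ t) := by
      rw [← Finset.sum_congr rfl fun t _ => hshift t, Finset.sum_const, Finset.card_range, nsmul_eq_mul]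
    rw [h1, Finset.sum_comm]
    refine Finset.sum_eq_zero fun y _ => ?_
    by_cases hy : IsUnit y
    · have h2 : ∑ t ∈ range p, χ y * (ψ y * (ψ ((m : ZMod q) * y)) ^ t) =
          χ y * ψ y * ∑ t ∈ range p, (ψ ((m : ZMod q) * y)) ^ t := by
        rw [Finset.mul_sum]
        exact Finset.sum_congr rfl fun t _ => by ring
      rw [h2, hgeo y hy, mul_zero]
    · refine Finset.sum_eq_zero fun t _ => ?_
      rw [MulChar.map_nonunit _ hy, zero_mul]
  rcases mul_eq_zero.1 hsum with h | h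
  · exact absurd h (by exact_mod_cast hp0.ne')
  · exact h

/-- `τ(χ) = 0` if `p² ∣ q` and the conductor divides `q/p` -/
theorem tqq_vanish (q p : ℕ) (hq : 1 ≤ q) (χ : DirichletCharacter ℂ q) (hp : p.Prime)
    (hpq : p ^ 2 ∣ q) (hc : χ.conductor ∣ q / p) : tqq q χ = 0 := by
  haveI : NeZero q := ⟨by omega⟩
  rw [tqq_eq, vn_gauss]
  exact vn_aux q p χ hp hpq hc

/-- if both Gauss sums are nonzero and `q = [cond χ₁, cond χ₂] s` then `s` is squarefree and coprime to `[cond χ₁, cond χ₂]` -/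
theorem tqq_ne (q s : ℕ) (hq : 1 ≤ q) (χ₁ χ₂ : DirichletCharacter ℂ q) (h1 : tqq q χ₁ ≠ 0)
    (h2 : tqq q χ₂ ≠ 0) (hs : q = Nat.lcm χ₁.conductor χ₂.conductor * s) :
    Squarefree s ∧ Nat.Coprime s (Nat.lcm χ₁.conductor χ₂.conductor) := by
  obtain ⟨q0, hq0⟩ : ∃ q0, q0 = Nat.lcm χ₁.conductor χ₂.conductor := ⟨_, rfl⟩
  rw [← hq0] at hs ⊢
  have hc1 : χ₁.conductor ∣ q0 := by rw [hq0]; exact Nat.dvd_lcm_left _ _
  have key : ∀ p : ℕ, p.Prime → p ∣ s → ¬ p ^ 2 ∣ q := by
    intro p hp hps hpq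
    apply h1
    refine tqq_vanish q p hq χ₁ hp hpq ?_
    obtain ⟨t, ht⟩ := hps
    have e1 : q / p = q0 * t := by
      rw [hs, ht]
      have : q0 * (p * t) = p * (q0 * t) := by ring
      rw [this, Nat.mul_div_cancel_left _ hp.pos]
    rw [e1]
    exact hc1.mul_right t
  constructor
  · rw [Nat.squarefree_iff_prime_squarefree]
    intro p hp hpp
    refine key p hp ((dvd_mul_right p p).trans hpp) ?_
    rw [pow_two, hs]
    exact hpp.mul_left q0
  · refine Nat.Coprime.symm ?_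
    refine Nat.coprime_of_dvd fun p hp hp1 hp2 => ?_
    refine key p hp hp2 ?_
    rw [pow_two, hs]
    exact mul_dvd_mul hp1 hp2

end Pool.MP_dd84fd_nt.BG
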